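import Pool.Agent.H306R2.RZ.Stubs

set_option autoImplicit false

/-! Task M2 of project RZ. -/

namespace Pool.Agent.H690R3.RZM2

open Finset Filter Topology MeasureTheory
open Pool.Agent.H306R2.RZ

noncomputable section

/-- numerator of the local factor of the holomorphic part -/
def nume (A B V v al be x : ℂ) : ℂ :=
  ((1 + x) * (1 - V ^ 2 * x) + x * (A * B - (A + B) * V + V ^ 2) + x * (v - al - be) +
    v * A * B * x ^ 2) * (1 - A * B * x) * (1 - v * x)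

/-- denominator -/
def deno (A B V al be x : ℂ) : ℂ :=
  (1 + x) * (1 - A * V * x) * (1 - B * V * x) * (1 - al * x) * (1 - be * x)

def numq (A B V v x : ℂ) : ℂ := (1 - A * B * x) * (1 - V ^ 2 * x) * (1 - v * x)

def denq (A B V al be x : ℂ) : ℂ :=
  (1 - A * V * x) * (1 - B * V * x) * (1 - al * x) * (1 - be * x)

/-- first order approximation -/
def Apx (x u a : ℂ) (m k : ℝ) : Prop := 0 ≤ k ∧ ‖a‖ ≤ m ∧ ‖u - 1 - a * x‖ ≤ k * ‖x‖ ^ 2

theorem Apx.mul {x u a u' a' : ℂ} {m k m' k' : ℝ} (hx : ‖x‖ ≤ 1) (h : Apx x u a m k)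
    (h' : Apx x u' a' m' k') :
    Apx x (u * u') (a + a') (m + m') (k * (1 + m' + k') + (1 + m) * k' + m * m') := by
  obtain ⟨hk, ha, hu⟩ := h
  obtain ⟨hk', ha', hu'⟩ := h'
  have hm : 0 ≤ m := le_trans (norm_nonneg _) ha
  have hm' : 0 ≤ m' := le_trans (norm_nonneg _) ha'
  have hx0 : 0 ≤ ‖x‖ := norm_nonneg _
  have hx2 : ‖x‖ ^ 2 ≤ 1 := pow_le_one₀ hx0 hx
  refine ⟨by positivity, le_trans (norm_add_le _ _) (add_le_add ha ha'), ?_⟩
  have e : u * u' - 1 - (a + a') * x =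
      (u - 1 - a * x) * u' + (1 + a * x) * (u' - 1 - a' * x) + a * a' * x ^ 2 := by ring
  have h1 : ‖u'‖ ≤ 1 + m' + k' := by
    have : u' = (u' - 1 - a' * x) + 1 + a' * x := by ring
    rw [this]
    refine le_trans (norm_add_le _ _) ?_
    refine le_trans (add_le_add (norm_add_le _ _) (le_of_eq (norm_mul _ _))) ?_
    rw [norm_one]
    have : ‖a'‖ * ‖x‖ ≤ m' * 1 := mul_le_mul ha' hx hx0 hm'
    have : k' * ‖x‖ ^ 2 ≤ k' * 1 := mul_le_mul_of_nonneg_left hx2 hk'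
    linarith
  have h2 : ‖1 + a * x‖ ≤ 1 + m := by
    refine le_trans (norm_add_le _ _) ?_
    rw [norm_one, norm_mul]
    have : ‖a‖ * ‖x‖ ≤ m * 1 := mul_le_mul ha hx hx0 hm
    linarith
  rw [e]
  refine le_trans (norm_add_le _ _) ?_
  refine le_trans (add_le_add (norm_add_le _ _) le_rfl) ?_
  rw [norm_mul, norm_mul, norm_mul, norm_mul, norm_pow]
  have t1 : ‖u - 1 - a * x‖ * ‖u'‖ ≤ (k * ‖x‖ ^ 2) * (1 + m' + k') :=
    mul_le_mul hu h1 (norm_nonneg _) (by positivity)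
  have t2 : ‖1 + a * x‖ * ‖u' - 1 - a' * x‖ ≤ (1 + m) * (k' * ‖x‖ ^ 2) :=
    mul_le_mul h2 hu' (norm_nonneg _) (by positivity)
  have t3 : ‖a‖ * ‖a'‖ * ‖x‖ ^ 2 ≤ m * m' * ‖x‖ ^ 2 :=
    mul_le_mul_of_nonneg_right (mul_le_mul ha ha' (norm_nonneg _) hm) (by positivity)
  linarith

theorem apx_lin {x c : ℂ} (hc : ‖c‖ ≤ 1) : Apx x (1 - c * x) (-c) 1 0 := by
  refine ⟨le_rfl, by rwa [norm_neg], ?_⟩
  have : (1 - c * x) - 1 - (-c) * x = 0 := by ring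
  rw [this]; simp

theorem nle {a b : ℂ} (ha : ‖a‖ ≤ 1) (hb : ‖b‖ ≤ 1) : ‖a * b‖ ≤ 1 := by
  rw [norm_mul]; exact mul_le_one₀ ha (norm_nonneg _) hb

theorem lin_ge {x c : ℂ} (hx : ‖x‖ ≤ 1 / 2) (hc : ‖c‖ ≤ 1) : 1 / 2 ≤ ‖1 - c * x‖ := by
  have h1 : ‖(1 : ℂ)‖ - ‖c * x‖ ≤ ‖1 - c * x‖ := norm_sub_norm_le _ _
  rw [norm_one, norm_mul] at h1
  have : ‖c‖ * ‖x‖ ≤ 1 * (1 / 2) := mul_le_mul hc hx (norm_nonneg _) zero_le_one
  linarith

theorem lin_ne {x c : ℂ} (hx : ‖x‖ ≤ 1 / 2) (hc : ‖c‖ ≤ 1) : 1 - c * x ≠ 0 := by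
  intro h
  have := lin_ge hx hc
  rw [h, norm_zero] at this
  linarith

theorem one_add_ge {x : ℂ} (hx : ‖x‖ ≤ 1 / 2) : 1 / 2 ≤ ‖1 + x‖ := by
  have := lin_ge (c := -1) hx (by simp)
  simpa using this

theorem one_add_ne {x : ℂ} (hx : ‖x‖ ≤ 1 / 2) : 1 + x ≠ 0 := by
  intro h
  have := one_add_ge hx
  rw [h, norm_zero] at this
  linarith

theorem main_bound {A B V v al be x : ℂ} (hA : ‖A‖ ≤ 1) (hB : ‖B‖ ≤ 1) (hV : ‖V‖ ≤ 1)
    (hv : ‖v‖ ≤ 1) (hal : ‖al‖ ≤ 1) (hbe : ‖be‖ ≤ 1) (hx : ‖x‖ ≤ 1 / 2) :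
    ‖nume A B V v al be x / deno A B V al be x - 1‖ ≤ 1792 * ‖x‖ ^ 2 := by
  have hx1 : ‖x‖ ≤ 1 := by linarith
  have hAB := nle hA hB
  have hAV := nle hA hV
  have hBV := nle hB hV
  have hVV := nle hV hV
  have hF : Apx x ((1 + x) * (1 - V ^ 2 * x) + x * (A * B - (A + B) * V + V ^ 2) +
      x * (v - al - be) + v * A * B * x ^ 2) (1 + A * B - A * V - B * V + v - al - be) 7 2 := by
    refine ⟨by norm_num, ?_, ?_⟩
    · have h1 : ‖1 + A * B - A * V - B * V + v - al - be‖ ≤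
          ‖(1 : ℂ)‖ + ‖A * B‖ + ‖A * V‖ + ‖B * V‖ + ‖v‖ + ‖al‖ + ‖be‖ := by
        refine le_trans (norm_sub_le _ _) (add_le_add ?_ le_rfl)
        refine le_trans (norm_sub_le _ _) (add_le_add ?_ le_rfl)
        refine le_trans (norm_add_le _ _) (add_le_add ?_ le_rfl)
        refine le_trans (norm_sub_le _ _) (add_le_add ?_ le_rfl)
        refine le_trans (norm_sub_le _ _) (add_le_add ?_ le_rfl)
        exact norm_add_le _ _
      rw [norm_one] at h1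
      linarith
    · have e : (1 + x) * (1 - V ^ 2 * x) + x * (A * B - (A + B) * V + V ^ 2) +
          x * (v - al - be) + v * A * B * x ^ 2 - 1 -
          (1 + A * B - A * V - B * V + v - al - be) * x = (v * (A * B) - V * V) * x ^ 2 := by ring
      rw [e, norm_mul, norm_pow]
      refine mul_le_mul_of_nonneg_right ?_ (by positivity)
      refine le_trans (norm_sub_le _ _) ?_
      have := nle hv hAB
      linarith
  have hN := (hF.mul hx1 (apx_lin (x := x) hAB)).mul hx1 (apx_lin (x := x) hv)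
  have h1 : Apx x (1 + x) 1 1 0 := by
    have := apx_lin (x := x) (c := -1) (by simp)
    simpa using this
  have hD := (((h1.mul hx1 (apx_lin (x := x) hAV)).mul hx1 (apx_lin (x := x) hBV)).mul hx1
    (apx_lin (x := x) hal)).mul hx1 (apx_lin (x := x) hbe)
  have hdiff : ‖nume A B V v al be x - deno A B V al be x‖ ≤ 56 * ‖x‖ ^ 2 := by
    have e : nume A B V v al be x - deno A B V al be x =
        (nume A B V v al be x - 1 -
          (1 + A * B - A * V - B * V + v - al - be + -(A * B) + -v) * x) -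
        (deno A B V al be x - 1 - (1 + -(A * V) + -(B * V) + -al + -be) * x) := by ring
    rw [e]
    refine le_trans (norm_sub_le _ _) ?_
    have a1 := hN.2.2
    have a2 := hD.2.2
    unfold nume deno
    norm_num at a1 a2
    linarith
  have hDge : 1 / 32 ≤ ‖deno A B V al be x‖ := by
    unfold deno
    rw [norm_mul, norm_mul, norm_mul, norm_mul]
    have b1 := one_add_ge hx
    have b2 := lin_ge hx hAV
    have b3 := lin_ge hx hBV
    have b4 := lin_ge hx hal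
    have b5 := lin_ge hx hbe
    calc (1 : ℝ) / 32 = 1 / 2 * (1 / 2) * (1 / 2) * (1 / 2) * (1 / 2) := by norm_num
      _ ≤ _ := by gcongr
  have hD0 : deno A B V al be x ≠ 0 := by
    intro h; rw [h, norm_zero] at hDge; linarith
  have e : nume A B V v al be x / deno A B V al be x - 1 =
      (nume A B V v al be x - deno A B V al be x) / deno A B V al be x := by
    rw [sub_div, div_self hD0]
  rw [e, norm_div, div_le_iff₀ (lt_of_lt_of_le (by norm_num) hDge)]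
  have : 1792 * ‖x‖ ^ 2 * (1 / 32) ≤ 1792 * ‖x‖ ^ 2 * ‖deno A B V al be x‖ :=
    mul_le_mul_of_nonneg_left hDge (by positivity)
  linarith

theorem q_bound {A B V v al be x : ℂ} (hA : ‖A‖ ≤ 1) (hB : ‖B‖ ≤ 1) (hV : ‖V‖ ≤ 1)
    (hv : ‖v‖ ≤ 1) (hal : ‖al‖ ≤ 1) (hbe : ‖be‖ ≤ 1) (hx : ‖x‖ ≤ 1 / 2) :
    ‖numq A B V v x / denq A B V al be x - 1‖ ≤ 352 * ‖x‖ := by
  have hx1 : ‖x‖ ≤ 1 := by linarith
  have hAB := nle hA hB
  have hAV := nle hA hV
  have hBV := nle hB hV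
  have hVV : ‖V ^ 2‖ ≤ 1 := by rw [sq]; exact nle hV hV
  have hN := ((apx_lin (x := x) hAB).mul hx1 (apx_lin (x := x) hVV)).mul hx1 (apx_lin (x := x) hv)
  have hD := (((apx_lin (x := x) hAV).mul hx1 (apx_lin (x := x) hBV)).mul hx1
    (apx_lin (x := x) hal)).mul hx1 (apx_lin (x := x) hbe)
  have hx2 : ‖x‖ ^ 2 ≤ ‖x‖ := by nlinarith [norm_nonneg x]
  have hdiff : ‖numq A B V v x - denq A B V al be x‖ ≤ 22 * ‖x‖ := by
    have e : numq A B V v x - denq A B V al be x =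
        (numq A B V v x - 1 - (-(A * B) + -V ^ 2 + -v) * x) -
        (denq A B V al be x - 1 - (-(A * V) + -(B * V) + -al + -be) * x) +
        ((-(A * B) + -V ^ 2 + -v) * x - (-(A * V) + -(B * V) + -al + -be) * x) := by ring
    rw [e]
    refine le_trans (norm_add_le _ _) ?_
    refine le_trans (add_le_add (norm_sub_le _ _) (norm_sub_le _ _)) ?_
    have a1 := hN.2.2
    have a2 := hD.2.2
    have c1 := hN.2.1
    have c2 := hD.2.1
    rw [norm_mul _ x, norm_mul _ x]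
    have d1 : ‖-(A * B) + -V ^ 2 + -v‖ * ‖x‖ ≤ 3 * ‖x‖ := by
      refine mul_le_mul_of_nonneg_right ?_ (norm_nonneg _)
      norm_num at c1
      linarith
    have d2 : ‖-(A * V) + -(B * V) + -al + -be‖ * ‖x‖ ≤ 4 * ‖x‖ := by
      refine mul_le_mul_of_nonneg_right ?_ (norm_nonneg _)
      norm_num at c2
      linarith
    unfold numq denq
    norm_num at a1 a2
    linarith
  have hDge : 1 / 16 ≤ ‖denq A B V al be x‖ := by
    unfold denq
    rw [norm_mul, norm_mul, norm_mul]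
    have b2 := lin_ge hx hAV
    have b3 := lin_ge hx hBV
    have b4 := lin_ge hx hal
    have b5 := lin_ge hx hbe
    calc (1 : ℝ) / 16 = 1 / 2 * (1 / 2) * (1 / 2) * (1 / 2) := by norm_num
      _ ≤ _ := by gcongr
  have hD0 : denq A B V al be x ≠ 0 := by
    intro h; rw [h, norm_zero] at hDge; linarith
  have e : numq A B V v x / denq A B V al be x - 1 =
      (numq A B V v x - denq A B V al be x) / denq A B V al be x := by
    rw [sub_div, div_self hD0]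
  rw [e, norm_div, div_le_iff₀ (lt_of_lt_of_le (by norm_num) hDge)]
  have : 352 * ‖x‖ * (1 / 16) ≤ 352 * ‖x‖ * ‖denq A B V al be x‖ :=
    mul_le_mul_of_nonneg_left hDge (by positivity)
  linarith

theorem norm_pw {p : ℕ} (hp : p.Prime) {w : ℂ} (hw : 0 < w.re) : ‖(p : ℂ) ^ (-w)‖ ≤ 1 := by
  rw [Complex.norm_natCast_cpow_of_pos hp.pos]
  refine Real.rpow_le_one_of_one_le_of_nonpos (by exact_mod_cast hp.one_le) ?_
  rw [Complex.neg_re]; linarith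

theorem norm_inv_le {p : ℕ} (hp : p.Prime) : ‖1 / (p : ℂ)‖ ≤ 1 / 2 := by
  rw [norm_div, norm_one, Complex.norm_natCast]
  have : (2 : ℝ) ≤ p := by exact_mod_cast hp.two_le
  exact one_div_le_one_div_of_le two_pos this

/-- local factor with the convergence factors -/
def ap (q : ℕ) (s : ℂ) (z : Fin 3 → ℂ) (p : ℕ) : ℂ :=
  if p ∣ q then
    numq ((p : ℂ) ^ (-(z 1))) ((p : ℂ) ^ (-(z 2))) ((p : ℂ) ^ (-(z 0)))
      ((p : ℂ) ^ (-(z 0 - s))) (1 / (p : ℂ)) /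
    denq ((p : ℂ) ^ (-(z 1))) ((p : ℂ) ^ (-(z 2))) ((p : ℂ) ^ (-(z 0)))
      ((p : ℂ) ^ (-(z 1 - s))) ((p : ℂ) ^ (-(z 2 - s))) (1 / (p : ℂ))
  else
    nume ((p : ℂ) ^ (-(z 1))) ((p : ℂ) ^ (-(z 2))) ((p : ℂ) ^ (-(z 0)))
      ((p : ℂ) ^ (-(z 0 - s))) ((p : ℂ) ^ (-(z 1 - s))) ((p : ℂ) ^ (-(z 2 - s))) (1 / (p : ℂ)) /
    deno ((p : ℂ) ^ (-(z 1))) ((p : ℂ) ^ (-(z 2))) ((p : ℂ) ^ (-(z 0)))
      ((p : ℂ) ^ (-(z 1 - s))) ((p : ℂ) ^ (-(z 2 - s))) (1 / (p : ℂ))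

theorem ap_bound (q : ℕ) (hq0 : q ≠ 0) (s : ℂ) (z : Fin 3 → ℂ) (hs : 0 < s.re)
    (hz : ∀ i, s.re < (z i).re) (p : ℕ) (hp : p.Prime) :
    ‖ap q s z p - 1‖ ≤ (1792 + 352 * (q : ℝ)) / (p : ℝ) ^ 2 := by
  have hz0 : ∀ i, 0 < (z i).re := fun i => lt_trans hs (hz i)
  have hzs : ∀ i, 0 < (z i - s).re := fun i => by rw [Complex.sub_re]; linarith [hz i]
  have hx := norm_inv_le hp
  have hpp : (0 : ℝ) < p := by exact_mod_cast hp.pos
  have hxn : ‖1 / (p : ℂ)‖ = 1 / (p : ℝ) := by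
    rw [norm_div, norm_one, Complex.norm_natCast]
  unfold ap
  split_ifs with h
  · refine le_trans (q_bound (norm_pw hp (hz0 1)) (norm_pw hp (hz0 2)) (norm_pw hp (hz0 0))
      (norm_pw hp (hzs 0)) (norm_pw hp (hzs 1)) (norm_pw hp (hzs 2)) hx) ?_
    rw [hxn]
    have hpq : (p : ℝ) ≤ q := by exact_mod_cast Nat.le_of_dvd (Nat.pos_of_ne_zero hq0) h
    have e : 352 * (1 / (p : ℝ)) = (352 * (p : ℝ)) / (p : ℝ) ^ 2 := by
      field_simp
    rw [e]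
    gcongr
    linarith
  · refine le_trans (main_bound (norm_pw hp (hz0 1)) (norm_pw hp (hz0 2)) (norm_pw hp (hz0 0))
      (norm_pw hp (hzs 0)) (norm_pw hp (hzs 1)) (norm_pw hp (hzs 2)) hx) ?_
    rw [hxn]
    have e : 1792 * (1 / (p : ℝ)) ^ 2 = 1792 / (p : ℝ) ^ 2 := by
      field_simp
    rw [e]
    gcongr
    have : (0 : ℝ) ≤ q := Nat.cast_nonneg q
    linarith

theorem alg1 (a b c d e f g : ℂ) (he : e ≠ 0) (hf : f ≠ 0) (hg : g ≠ 0) :
    1 * (a⁻¹ * b⁻¹ * c⁻¹ * d⁻¹) = (e * f * g) / (a * b * c * d) * (e⁻¹ * f⁻¹ * g⁻¹) := by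
  have h1 : (e * f * g) * (e⁻¹ * f⁻¹ * g⁻¹) = 1 := by field_simp
  calc 1 * (a⁻¹ * b⁻¹ * c⁻¹ * d⁻¹) = ((e * f * g) * (e⁻¹ * f⁻¹ * g⁻¹)) * (a⁻¹ * b⁻¹ * c⁻¹ * d⁻¹) := by
        rw [h1]
    _ = _ := by rw [div_eq_mul_inv, mul_inv, mul_inv, mul_inv]; ring

theorem alg2 (F a b c d e f g h : ℂ) (he : e ≠ 0) (hg : g ≠ 0) :
    F / (h * f) * (a⁻¹ * b⁻¹ * c⁻¹ * d⁻¹) =
      (F * e * g) / (h * a * b * c * d) * (e⁻¹ * f⁻¹ * g⁻¹) := by
  have h1 : e * e⁻¹ = 1 := mul_inv_cancel₀ he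
  have h2 : g * g⁻¹ = 1 := mul_inv_cancel₀ hg
  calc F / (h * f) * (a⁻¹ * b⁻¹ * c⁻¹ * d⁻¹) =
      F * (e * e⁻¹) * (g * g⁻¹) * (h⁻¹ * f⁻¹ * a⁻¹ * b⁻¹ * c⁻¹ * d⁻¹) := by
        rw [h1, h2, div_eq_mul_inv, mul_inv]; ring
    _ = _ := by rw [div_eq_mul_inv, mul_inv, mul_inv, mul_inv, mul_inv]; ring

theorem lf_alg (P x A B V v al be S : ℂ) (hP : P ≠ 0) (hx : x = 1 / P) (hP1 : P + 1 ≠ 0)
    (hV : P - V ^ 2 ≠ 0) (h1 : S * V = v * x) (h2 : S * A = al * x) (h3 : S * B = be * x) :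
    1 + P / (P + 1) * ((1 + (A * B - (A + B) * V) / P) / (1 - V ^ 2 / P) - 1 +
      S * (V - A - B + V * A * B / P) / (1 - V ^ 2 / P)) =
    ((1 + x) * (1 - V ^ 2 * x) + x * (A * B - (A + B) * V + V ^ 2) + x * (v - al - be) +
      v * A * B * x ^ 2) / ((1 + x) * (1 - V ^ 2 * x)) := by
  have hS : S * (V - A - B + V * A * B / P) = x * (v - al - be) + v * A * B * x ^ 2 := by
    have : V * A * B / P = V * A * B * x := by rw [hx]; ring
    rw [this]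
    linear_combination h1 - h2 - h3 + A * B * x * h1
  rw [hS, hx]
  have hV' : (1 : ℂ) - V ^ 2 / P ≠ 0 := by
    intro h
    apply hV
    have : P - V ^ 2 = P * (1 - V ^ 2 / P) := by field_simp
    rw [this, h, mul_zero]
  have hV'' : (1 : ℂ) - V ^ 2 * (1 / P) ≠ 0 := by
    intro h
    apply hV'
    rw [← h]; ring
  have hx' : (1 : ℂ) + 1 / P ≠ 0 := by
    intro h
    apply hP1
    have : P + 1 = P * (1 + 1 / P) := by field_simp
    rw [this, h, mul_zero]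
  rw [eq_div_iff (mul_ne_zero hx' hV'')]
  field_simp
  ring

theorem key (q : ℕ) (s : ℂ) (z : Fin 3 → ℂ) (hs : 0 < s.re) (hz : ∀ i, s.re < (z i).re)
    (p : ℕ) (hp : p.Prime) :
    lf2 q s z p * ((1 - (p : ℂ) ^ (-(1 + (z 1 + z 0))))⁻¹ * (1 - (p : ℂ) ^ (-(1 + (z 2 + z 0))))⁻¹ *
      (1 - (p : ℂ) ^ (-(1 + (z 1 - s))))⁻¹ * (1 - (p : ℂ) ^ (-(1 + (z 2 - s))))⁻¹) =
    ap q s z p * ((1 - (p : ℂ) ^ (-(1 + (z 1 + z 2))))⁻¹ * (1 - (p : ℂ) ^ (-(1 + 2 * z 0)))⁻¹ *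
      (1 - (p : ℂ) ^ (-(1 + (z 0 - s))))⁻¹) := by
  have hz0 : ∀ i, 0 < (z i).re := fun i => lt_trans hs (hz i)
  have hzs : ∀ i, 0 < (z i - s).re := fun i => by rw [Complex.sub_re]; linarith [hz i]
  have hx := norm_inv_le hp
  have hP : (p : ℂ) ≠ 0 := by exact_mod_cast hp.ne_zero
  have hm1 : (p : ℂ) ^ (-1 : ℂ) = 1 / (p : ℂ) := by
    rw [Complex.cpow_neg_one, one_div]
  have g : ∀ w : ℂ, (p : ℂ) ^ (-(1 + w)) = (p : ℂ) ^ (-w) * (1 / (p : ℂ)) := by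
    intro w
    rw [show -(1 + w) = -w + (-1) by ring, Complex.cpow_add _ _ hP, hm1]
  have g2 : ∀ w w' : ℂ, (p : ℂ) ^ (-(w + w')) = (p : ℂ) ^ (-w) * (p : ℂ) ^ (-w') := by
    intro w w'
    rw [neg_add, Complex.cpow_add _ _ hP]
  have gS : ∀ i, (p : ℂ) ^ (s - 1) * (p : ℂ) ^ (-(z i)) = (p : ℂ) ^ (-(z i - s)) * (1 / (p : ℂ)) := by
    intro i
    rw [← Complex.cpow_add _ _ hP, ← hm1, ← Complex.cpow_add _ _ hP]
    congr 1; ring
  have e1 : (p : ℂ) ^ (-(1 + (z 1 + z 0))) = (p : ℂ) ^ (-(z 1)) * (p : ℂ) ^ (-(z 0)) * (1 / (p : ℂ)) := by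
    rw [g, g2]
  have e2 : (p : ℂ) ^ (-(1 + (z 2 + z 0))) = (p : ℂ) ^ (-(z 2)) * (p : ℂ) ^ (-(z 0)) * (1 / (p : ℂ)) := by
    rw [g, g2]
  have e3 : (p : ℂ) ^ (-(1 + (z 1 + z 2))) = (p : ℂ) ^ (-(z 1)) * (p : ℂ) ^ (-(z 2)) * (1 / (p : ℂ)) := by
    rw [g, g2]
  have e4 : (p : ℂ) ^ (-(1 + 2 * z 0)) = ((p : ℂ) ^ (-(z 0))) ^ 2 * (1 / (p : ℂ)) := by
    rw [g, two_mul, g2, sq]
  rw [e1, e2, e3, e4, g (z 1 - s), g (z 2 - s), g (z 0 - s)]
  have nA := norm_pw hp (hz0 1)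
  have nB := norm_pw hp (hz0 2)
  have nV := norm_pw hp (hz0 0)
  have nv := norm_pw hp (hzs 0)
  have nal := norm_pw hp (hzs 1)
  have nbe := norm_pw hp (hzs 2)
  have hS1 := gS 0
  have hS2 := gS 1
  have hS3 := gS 2
  unfold ap lf2
  generalize (p : ℂ) ^ (-(z 1)) = A at *
  generalize (p : ℂ) ^ (-(z 2)) = B at *
  generalize (p : ℂ) ^ (-(z 0)) = V at *
  generalize (p : ℂ) ^ (-(z 0 - s)) = v at *
  generalize (p : ℂ) ^ (-(z 1 - s)) = al at *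
  generalize (p : ℂ) ^ (-(z 2 - s)) = be at *
  generalize (p : ℂ) ^ (s - 1) = S at *
  have nVV : ‖V ^ 2‖ ≤ 1 := by rw [sq]; exact nle nV nV
  have f1 := lin_ne hx (nle nA nV)
  have f2 := lin_ne hx (nle nB nV)
  have f3 := lin_ne hx (nle nA nB)
  have f4 := lin_ne hx nVV
  have f5 := lin_ne hx nv
  have f6 := lin_ne hx nal
  have f7 := lin_ne hx nbe
  have f8 := one_add_ne hx
  split_ifs with h
  · unfold numq denq
    exact alg1 _ _ _ _ _ _ _ f3 f4 f5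
  · have hP1 : (p : ℂ) + 1 ≠ 0 := by
      intro h0
      apply f8
      have : (1 : ℂ) + 1 / (p : ℂ) = ((p : ℂ) + 1) / p := by field_simp
      rw [this, h0, zero_div]
    have hV : (p : ℂ) - V ^ 2 ≠ 0 := by
      intro h0
      apply f4
      have : V ^ 2 = (p : ℂ) := by linear_combination -h0
      rw [this]; field_simp; ring
    rw [lf_alg (p : ℂ) (1 / (p : ℂ)) A B V v al be S hP rfl hP1 hV hS1 hS2 hS3]
    unfold nume deno
    exact alg2 _ _ _ _ _ _ _ _ _ f3 f5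

theorem tend_pw {p : ℕ} (hp : p.Prime) (w : ℂ) :
    Tendsto (fun L : ℝ => (p : ℂ) ^ (-(w / (L : ℂ)))) atTop (𝓝 1) := by
  have hP : (p : ℂ) ≠ 0 := by exact_mod_cast hp.ne_zero
  have h1 : Tendsto (fun L : ℝ => w / (L : ℂ)) atTop (𝓝 0) := by
    have : Tendsto (fun L : ℝ => ((L⁻¹ : ℝ) : ℂ)) atTop (𝓝 ((0 : ℝ) : ℂ)) :=
      (Complex.continuous_ofReal.tendsto _).comp tendsto_inv_atTop_zero
    have h2 := this.const_mul w
    simp only [Complex.ofReal_zero, mul_zero] at h2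
    refine h2.congr (fun L => ?_)
    rw [Complex.ofReal_inv, div_eq_mul_inv]
  have h3 : Tendsto (fun L : ℝ => -(w / (L : ℂ))) atTop (𝓝 0) := by
    simpa using h1.neg
  have h4 := h3.const_cpow (Or.inl hP)
  simpa using h4

/-- limits of the local factors -/
def bp (q : ℕ) (p : ℕ) : ℂ :=
  (1 - (p : ℂ) ^ (-(2 : ℂ)))⁻¹ * (if p ∣ q then 1 + 1 / (p : ℂ) else 1)

theorem ap_tendsto (q : ℕ) (s : ℂ) (z : Fin 3 → ℂ) (p : ℕ) (hp : p.Prime) :
    Tendsto (fun L : ℝ => ap q (s / (L : ℂ)) (fun i => z i / (L : ℂ)) p) atTop (𝓝 (bp q p)) := by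
  have hx := norm_inv_le hp
  have hP : (p : ℂ) ≠ 0 := by exact_mod_cast hp.ne_zero
  have t1 := tend_pw hp (z 1)
  have t2 := tend_pw hp (z 2)
  have t0 := tend_pw hp (z 0)
  have ts : ∀ i, Tendsto (fun L : ℝ => (p : ℂ) ^ (-(z i / (L : ℂ) - s / (L : ℂ)))) atTop (𝓝 1) := by
    intro i
    have := tend_pw hp (z i - s)
    refine this.congr (fun L => ?_)
    rw [sub_div]
  have hm2 : (p : ℂ) ^ (-(2 : ℂ)) = (1 / (p : ℂ)) ^ 2 := by
    rw [Complex.cpow_neg, show (2 : ℂ) = ((2 : ℕ) : ℂ) by norm_num, Complex.cpow_natCast]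
    rw [one_div, inv_pow]
  have f1 : (1 : ℂ) - 1 / (p : ℂ) ≠ 0 := by
    have := lin_ne hx (c := 1) (by simp)
    simpa using this
  have f2 := one_add_ne hx
  have f3 : (1 : ℂ) - (1 / (p : ℂ)) ^ 2 ≠ 0 := by
    rw [show (1 : ℂ) - (1 / (p : ℂ)) ^ 2 = (1 - 1 / (p : ℂ)) * (1 + 1 / (p : ℂ)) by ring]
    exact mul_ne_zero f1 f2
  unfold ap bp
  rw [hm2]
  split_ifs with h
  · have hc : Continuous (fun t : ℂ × ℂ × ℂ × ℂ => numq t.1 t.2.1 t.2.2.1 t.2.2.2 (1 / (p : ℂ))) := by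
      unfold numq; fun_prop
    have hd : Continuous (fun t : ℂ × ℂ × ℂ × ℂ × ℂ => denq t.1 t.2.1 t.2.2.1 t.2.2.2.1 t.2.2.2.2
        (1 / (p : ℂ))) := by
      unfold denq; fun_prop
    have u1 := (hc.tendsto (1, 1, 1, 1)).comp (t1.prodMk_nhds (t2.prodMk_nhds (t0.prodMk_nhds (ts 0))))
    have u2 := (hd.tendsto (1, 1, 1, 1, 1)).comp
      (t1.prodMk_nhds (t2.prodMk_nhds (t0.prodMk_nhds ((ts 1).prodMk_nhds (ts 2)))))
    have hd0 : denq 1 1 1 1 1 (1 / (p : ℂ)) ≠ 0 := by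
      unfold denq
      simp only [one_mul]
      exact mul_ne_zero (mul_ne_zero (mul_ne_zero f1 f1) f1) f1
    have u3 := u1.div u2 hd0
    have e : numq 1 1 1 1 (1 / (p : ℂ)) / denq 1 1 1 1 1 (1 / (p : ℂ)) =
        (1 - (1 / (p : ℂ)) ^ 2)⁻¹ * (1 + 1 / (p : ℂ)) := by
      unfold numq denq
      generalize (1 / (p : ℂ)) = x at *
      simp only [one_mul, one_pow]
      rw [eq_comm, inv_mul_eq_div, div_eq_div_iff f3 (mul_ne_zero (mul_ne_zero (mul_ne_zero f1 f1) f1) f1)]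
      ring
    rw [← e]
    exact u3
  · have hc : Continuous (fun t : ℂ × ℂ × ℂ × ℂ × ℂ × ℂ => nume t.1 t.2.1 t.2.2.1 t.2.2.2.1 t.2.2.2.2.1
        t.2.2.2.2.2 (1 / (p : ℂ))) := by
      unfold nume; fun_prop
    have hd : Continuous (fun t : ℂ × ℂ × ℂ × ℂ × ℂ => deno t.1 t.2.1 t.2.2.1 t.2.2.2.1 t.2.2.2.2
        (1 / (p : ℂ))) := by
      unfold deno; fun_prop
    have u1 := (hc.tendsto (1, 1, 1, 1, 1, 1)).comp (t1.prodMk_nhds (t2.prodMk_nhds (t0.prodMk_nhds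
      ((ts 0).prodMk_nhds ((ts 1).prodMk_nhds (ts 2))))))
    have u2 := (hd.tendsto (1, 1, 1, 1, 1)).comp
      (t1.prodMk_nhds (t2.prodMk_nhds (t0.prodMk_nhds ((ts 1).prodMk_nhds (ts 2)))))
    have hd0 : deno 1 1 1 1 1 (1 / (p : ℂ)) ≠ 0 := by
      unfold deno
      simp only [one_mul]
      exact mul_ne_zero (mul_ne_zero (mul_ne_zero (mul_ne_zero f2 f1) f1) f1) f1
    have u3 := u1.div u2 hd0
    have e : nume 1 1 1 1 1 1 (1 / (p : ℂ)) / deno 1 1 1 1 1 (1 / (p : ℂ)) =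
        (1 - (1 / (p : ℂ)) ^ 2)⁻¹ * 1 := by
      unfold nume deno
      generalize (1 / (p : ℂ)) = x at *
      simp only [one_mul, one_pow]
      rw [eq_comm, inv_mul_eq_div, div_eq_div_iff f3
        (mul_ne_zero (mul_ne_zero (mul_ne_zero (mul_ne_zero f2 f1) f1) f1) f1)]
      ring
    rw [← e]
    exact u3

theorem bp_prod (q : ℕ) (hq0 : q ≠ 0) : HasProd (fun p : Nat.Primes => bp q p) (1 / (Pc q : ℂ)) := by
  classical
  have h1 : HasProd (fun p : Nat.Primes => (1 - (p : ℂ) ^ (-(2 : ℂ)))⁻¹) (riemannZeta 2) :=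
    riemannZeta_eulerProduct_hasProd (by norm_num)
  let S : Finset Nat.Primes := Finset.subtype Nat.Prime q.primeFactors
  have h2 : HasProd (fun p : Nat.Primes => if (p : ℕ) ∣ q then 1 + 1 / ((p : ℕ) : ℂ) else 1)
      (∏ p ∈ S, (if (p : ℕ) ∣ q then 1 + 1 / ((p : ℕ) : ℂ) else 1)) := by
    refine hasProd_prod_of_ne_finset_one ?_
    intro p hp
    rw [if_neg]
    intro hd
    exact hp (Finset.mem_subtype.2 (Nat.mem_primeFactors.2 ⟨p.2, hd, hq0⟩))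
  have h3 : (∏ p ∈ S, (if (p : ℕ) ∣ q then 1 + 1 / ((p : ℕ) : ℂ) else 1)) =
      ∏ p ∈ q.primeFactors, (1 + 1 / (p : ℂ)) := by
    have e1 : (∏ p ∈ S, (if (p : ℕ) ∣ q then 1 + 1 / ((p : ℕ) : ℂ) else 1)) =
        ∏ p ∈ S, (fun n : ℕ => 1 + 1 / (n : ℂ)) (p : ℕ) := by
      refine Finset.prod_congr rfl (fun p hp => ?_)
      rw [if_pos (Nat.dvd_of_mem_primeFactors (Finset.mem_subtype.1 hp))]
    rw [e1]
    exact Finset.prod_subtype_of_mem (fun n : ℕ => 1 + 1 / (n : ℂ))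
      (fun p hp => Nat.prime_of_mem_primeFactors hp)
  have h4 := h1.mul h2
  rw [h3] at h4
  have h5 : riemannZeta 2 * ∏ p ∈ q.primeFactors, (1 + 1 / (p : ℂ)) = 1 / (Pc q : ℂ) := by
    have hnu : ((nu q : ℝ) : ℂ) * ∏ p ∈ q.primeFactors, (1 + 1 / (p : ℂ)) = 1 := by
      unfold nu
      rw [Complex.ofReal_prod, ← Finset.prod_mul_distrib]
      refine Finset.prod_eq_one (fun p hp => ?_)
      have hp0 : (p : ℂ) ≠ 0 := by exact_mod_cast (Nat.prime_of_mem_primeFactors hp).ne_zero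
      have hp1 : (p : ℂ) + 1 ≠ 0 := by exact_mod_cast Nat.succ_ne_zero p
      push_cast
      field_simp
    have hpi : (Real.pi : ℂ) ≠ 0 := by exact_mod_cast Real.pi_ne_zero
    have hnu0 : ((nu q : ℝ) : ℂ) ≠ 0 := by
      intro h0; rw [h0, zero_mul] at hnu; exact zero_ne_one hnu
    have hprod : ∏ p ∈ q.primeFactors, (1 + 1 / (p : ℂ)) = ((nu q : ℝ) : ℂ)⁻¹ := by
      exact eq_inv_of_mul_eq_one_right hnu
    rw [hprod, riemannZeta_two]
    unfold Pc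
    push_cast
    field_simp
  rw [h5] at h4
  exact h4

theorem M2 (q : ℕ) (hq0 : q ≠ 0) : ∃ A : ℂ → (Fin 3 → ℂ) → ℂ,
    (∀ (s : ℂ) (z : Fin 3 → ℂ), 0 < s.re → (∀ i, s.re < (z i).re) → DD2 q s z =
      riemannZeta (1 + (z 1 + z 2)) * riemannZeta (1 + 2 * z 0) * riemannZeta (1 + (z 0 - s)) *
      (riemannZeta (1 + (z 1 + z 0)))⁻¹ * (riemannZeta (1 + (z 2 + z 0)))⁻¹ *
      (riemannZeta (1 + (z 1 - s)))⁻¹ * (riemannZeta (1 + (z 2 - s)))⁻¹ * A s z) ∧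
    (∃ C : ℝ, ∀ (s : ℂ) (z : Fin 3 → ℂ), 0 < s.re → (∀ i, s.re < (z i).re) → ‖A s z‖ ≤ C) ∧
    (∀ (s : ℂ) (z : Fin 3 → ℂ), 0 < s.re → (∀ i, s.re < (z i).re) →
      Tendsto (fun L : ℝ => A (s / (L : ℂ)) (fun i => z i / (L : ℂ))) atTop (𝓝 (1 / (Pc q : ℂ)))) := by
  refine ⟨fun s z => ∏' p : Nat.Primes, ap q s z p, ?_, ⟨Real.exp (2 * (1792 + 352 * (q : ℝ))), ?_⟩, ?_⟩
  · intro s z hs hz
    have hz0 : ∀ i, 0 < (z i).re := fun i => lt_trans hs (hz i)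
    have hM := Stubs.M2e q s hs z hz
    have hE := Stubs.EPg (fun _ p => ap q s z p) (fun p => ap q s z p) (1792 + 352 * (q : ℝ))
      (fun _ p => ap_bound q hq0 s z hs hz p p.2) (fun p => tendsto_const_nhds)
    have hA : HasProd (fun p : Nat.Primes => ap q s z p) (∏' p : Nat.Primes, ap q s z p) :=
      (hE.2.2.1).hasProd
    have r1 : 1 < (1 + (z 1 + z 2)).re := by
      simp only [Complex.add_re, Complex.one_re]; linarith [hz0 1, hz0 2]
    have r2 : 1 < (1 + 2 * z 0).re := by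
      simp only [Complex.add_re, Complex.one_re, Complex.mul_re, Complex.re_ofNat, Complex.im_ofNat]
      linarith [hz0 0]
    have r3 : 1 < (1 + (z 0 - s)).re := by
      simp only [Complex.add_re, Complex.one_re, Complex.sub_re]; linarith [hz 0]
    have r4 : 1 < (1 + (z 1 + z 0)).re := by
      simp only [Complex.add_re, Complex.one_re]; linarith [hz0 1, hz0 0]
    have r5 : 1 < (1 + (z 2 + z 0)).re := by
      simp only [Complex.add_re, Complex.one_re]; linarith [hz0 2, hz0 0]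
    have r6 : 1 < (1 + (z 1 - s)).re := by
      simp only [Complex.add_re, Complex.one_re, Complex.sub_re]; linarith [hz 1]
    have r7 : 1 < (1 + (z 2 - s)).re := by
      simp only [Complex.add_re, Complex.one_re, Complex.sub_re]; linarith [hz 2]
    have hL := hM.mul ((((riemannZeta_eulerProduct_hasProd r4).mul
      (riemannZeta_eulerProduct_hasProd r5)).mul (riemannZeta_eulerProduct_hasProd r6)).mul
      (riemannZeta_eulerProduct_hasProd r7))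
    have hR := hA.mul (((riemannZeta_eulerProduct_hasProd r1).mul
      (riemannZeta_eulerProduct_hasProd r2)).mul (riemannZeta_eulerProduct_hasProd r3))
    have hfun : (fun p : Nat.Primes => lf2 q s z p *
        ((1 - ((p : ℕ) : ℂ) ^ (-(1 + (z 1 + z 0))))⁻¹ * (1 - ((p : ℕ) : ℂ) ^ (-(1 + (z 2 + z 0))))⁻¹ *
      (1 - ((p : ℕ) : ℂ) ^ (-(1 + (z 1 - s))))⁻¹ * (1 - ((p : ℕ) : ℂ) ^ (-(1 + (z 2 - s))))⁻¹)) =
      (fun p : Nat.Primes => ap q s z p *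
        ((1 - ((p : ℕ) : ℂ) ^ (-(1 + (z 1 + z 2))))⁻¹ * (1 - ((p : ℕ) : ℂ) ^ (-(1 + 2 * z 0)))⁻¹ *
      (1 - ((p : ℕ) : ℂ) ^ (-(1 + (z 0 - s))))⁻¹)) := by
      funext p
      exact key q s z hs hz p p.2
    have hval : DD2 q s z * (riemannZeta (1 + (z 1 + z 0)) * riemannZeta (1 + (z 2 + z 0)) *
        riemannZeta (1 + (z 1 - s)) * riemannZeta (1 + (z 2 - s))) =
        (∏' p : Nat.Primes, ap q s z p) * (riemannZeta (1 + (z 1 + z 2)) *
          riemannZeta (1 + 2 * z 0) * riemannZeta (1 + (z 0 - s))) := by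
      refine HasProd.unique (f := fun p : Nat.Primes => lf2 q s z p *
        ((1 - ((p : ℕ) : ℂ) ^ (-(1 + (z 1 + z 0))))⁻¹ * (1 - ((p : ℕ) : ℂ) ^ (-(1 + (z 2 + z 0))))⁻¹ *
      (1 - ((p : ℕ) : ℂ) ^ (-(1 + (z 1 - s))))⁻¹ * (1 - ((p : ℕ) : ℂ) ^ (-(1 + (z 2 - s))))⁻¹)) hL ?_
      rw [hfun]
      exact hR
    have n4 := riemannZeta_ne_zero_of_one_lt_re r4
    have n5 := riemannZeta_ne_zero_of_one_lt_re r5
    have n6 := riemannZeta_ne_zero_of_one_lt_re r6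
    have n7 := riemannZeta_ne_zero_of_one_lt_re r7
    show DD2 q s z = _
    rw [← eq_div_iff (mul_ne_zero (mul_ne_zero (mul_ne_zero n4 n5) n6) n7)] at hval
    rw [hval]
    field_simp
  · intro s z hs hz
    have hE := Stubs.EPg (fun _ p => ap q s z p) (fun p => ap q s z p) (1792 + 352 * (q : ℝ))
      (fun _ p => ap_bound q hq0 s z hs hz p p.2) (fun p => tendsto_const_nhds)
    exact hE.2.1 0
  · intro s z hs hz
    have hsL : ∀ L : ℝ, 0 < L → 0 < (s / (L : ℂ)).re := by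
      intro L hL
      rw [Complex.div_ofReal_re]; positivity
    have hzL : ∀ L : ℝ, 0 < L → ∀ i, (s / (L : ℂ)).re < (z i / (L : ℂ)).re := by
      intro L hL i
      rw [Complex.div_ofReal_re, Complex.div_ofReal_re]
      exact div_lt_div_of_pos_right (hz i) hL
    have hE := Stubs.EPg
      (fun L p => if 0 < L then ap q (s / (L : ℂ)) (fun i => z i / (L : ℂ)) p else 1)
      (fun p => bp q p) (1792 + 352 * (q : ℝ)) (by
        intro L p
        by_cases hL : 0 < L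
        · simp only [hL, if_true]
          exact ap_bound q hq0 _ _ (hsL L hL) (hzL L hL) p p.2
        · simp only [hL, if_false, sub_self, norm_zero]
          positivity) (by
        intro p
        refine (ap_tendsto q s z p p.2).congr' ?_
        filter_upwards [eventually_gt_atTop (0 : ℝ)] with L hL
        simp only [hL, if_true])
    have hlim := hE.2.2.2
    rw [(bp_prod q hq0).tprod_eq] at hlim
    refine hlim.congr' ?_
    filter_upwards [eventually_gt_atTop (0 : ℝ)] with L hL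
    simp only [hL, if_true]

end

end Pool.Agent.H690R3.RZM2
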